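import Pool.Agent.MWI.StmtsE

/-!
# Squad MWI (problem MP_23468a_al), row IM5: the pattern and the names
-/

namespace Pool.Agent.MWI.H88

open Pool.Agent.Helper14_MV Pool.Agent.Helper2_MV Pool.Agent.MWF Pool.Agent.MWI

theorem split_unique {y : ℕ} : ∀ (a A r R : List ℕ), y ∉ a → y ∉ A → a ++ y :: r = A ++ y :: R →
    a = A ∧ r = R := by
  intro a
  induction a with
  | nil =>
    intro A r R _ hA h
    cases A with
    | nil =>
      simp only [List.nil_append, List.cons.injEq, true_and] at h
      exact ⟨rfl, h⟩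
    | cons x A =>
      simp only [List.nil_append, List.cons_append, List.cons.injEq] at h
      exact absurd (by rw [h.1]; simp) hA
  | cons x a ih =>
    intro A r R ha hA h
    cases A with
    | nil =>
      simp only [List.nil_append, List.cons_append, List.cons.injEq] at h
      exact absurd (by rw [h.1]; simp) ha
    | cons x' A =>
      simp only [List.cons_append, List.cons.injEq] at h
      obtain ⟨rfl, h⟩ := h
      have := ih A r R (fun h' => ha (List.mem_cons_of_mem _ h'))
        (fun h' => hA (List.mem_cons_of_mem _ h')) h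
      exact ⟨by rw [this.1], this.2⟩

theorem btw_two {y z : ℕ} {A U C : List ℕ} (hc : (A ++ y :: (U ++ y :: C)).count y = 2)
    (h : MVD.Btw y z (A ++ y :: (U ++ y :: C))) : z ∈ U := by
  obtain ⟨a, b, c, e, hz⟩ := h
  have h1 := hc
  rw [e] at h1
  simp only [List.count_append, List.count_cons_self] at h1 hc
  have a0 : y ∉ a := List.count_eq_zero.1 (by omega)
  have b0 : y ∉ b := List.count_eq_zero.1 (by omega)
  have A0 : y ∉ A := List.count_eq_zero.1 (by omega)
  have U0 : y ∉ U := List.count_eq_zero.1 (by omega)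
  obtain ⟨rfl, e2⟩ := split_unique _ _ _ _ A0 a0 e
  obtain ⟨rfl, -⟩ := split_unique _ _ _ _ U0 b0 e2
  exact hz

theorem fin_check : ∀ s s' e' : Bool, ∀ i < 3, ∀ j < 3,
    (∀ k < 7, cv s' (rl e' j) k = true → cv s i k = true) →
    (nm e' i = 3 * j ∧ (i = 1 → s = s')) := by
  intro s s' e' i hi j hj h
  have a0 := h 0 (by omega)
  have a1 := h 1 (by omega)
  have a2 := h 2 (by omega)
  have a3 := h 3 (by omega)
  have a4 := h 4 (by omega)
  have a5 := h 5 (by omega)
  have a6 := h 6 (by omega)
  clear h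
  revert a0 a1 a2 a3 a4 a5 a6
  interval_cases i <;> interval_cases j <;> cases s <;> cases s' <;> cases e' <;> decide

theorem mem_idx {m E : ℕ} (h : E ∈ idx m) : E < 7 * m := by
  unfold idx ci at h
  simp only [List.mem_flatMap, List.mem_range, List.mem_map] at h
  obtain ⟨k, hk, i, hi, rfl⟩ := h
  omega

theorem nm_form (e : Bool) (i : ℕ) : ∃ j < 3, nm e i = 3 * j := by
  unfold nm
  split_ifs
  · exact ⟨1, by omega, rfl⟩
  · exact ⟨0, by omega, rfl⟩
  · exact ⟨0, by omega, rfl⟩
  · exact ⟨1, by omega, rfl⟩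
  · exact ⟨2, by omega, rfl⟩

theorem im5 (h1 : MmfStmt) (_h2 : CvfStmt) : Im5Stmt := by
  intro P Q m s' e' w M Y hm H s e f hM hf hfz
  obtain ⟨hperm, -, -, hU⟩ := h1 m s e
  have hcount : ∀ j < 3, M.count (3 * j) = 2 := by
    intro j hj
    rw [H.pM.count_eq]
    have h0 : ∀ j', (zz (idx m)).count (3 * j') = 0 := by
      intro j'
      rw [List.count_eq_zero]
      intro hmem
      unfold zz at hmem
      rw [List.mem_map] at hmem
      obtain ⟨E, -, hE⟩ := hmem
      omega
    have h00 : (zz (idx m)).count 0 = 0 := h0 0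
    have h03 : (zz (idx m)).count 3 = 0 := h0 1
    have h06 : (zz (idx m)).count 6 = 0 := h0 2
    interval_cases j
    · simp [h00]
    · simp [h03]
    · simp [h06]
  -- the key step
  have key : ∀ i < 3, ∃ g < 3, f (nm e i) = [3 * g] ∧
      ∀ k < 7, cv s' (rl e' g) k = true → cv s i k = true := by
    intro i hi
    obtain ⟨i', hi', hni⟩ := nm_form e i
    obtain ⟨g, hg, hfg⟩ := hf i' hi'
    refine ⟨g, hg, by rw [hni, hfg], fun k hk hcv => ?_⟩
    obtain ⟨U0, U, U1, eL, -, -, -, -, -, -, hback⟩ := hU i hi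
    have hB := H.cv g hg k hk hcv 0 hm
    have eM : M = U0.flatMap f ++ 3 * g :: (U.flatMap f ++ 3 * g :: U1.flatMap f) := by
      rw [hM, eL, hni]
      simp [List.flatMap_append, List.flatMap_cons, hfg]
    have hc := hcount g hg
    rw [eM] at hB hc
    have hz := btw_two hc hB
    rw [List.mem_flatMap] at hz
    obtain ⟨c, hcU, hzc⟩ := hz
    have hcL : c ∈ MM m s (nm e 0) (nm e 1) (nm e 2) := by
      rw [eL]
      simp [hcU]
    have hcP := hperm.mem_iff.1 hcL
    have hcase : (∃ j < 3, c = 3 * j) ∨ ∃ E < 7 * m, c = 3 * E + 2 := by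
      simp only [List.mem_cons] at hcP
      rcases hcP with h | h | h | h | h | h | h
      · exact Or.inl ⟨0, by omega, h⟩
      · exact Or.inl ⟨0, by omega, h⟩
      · exact Or.inl ⟨1, by omega, h⟩
      · exact Or.inl ⟨1, by omega, h⟩
      · exact Or.inl ⟨2, by omega, h⟩
      · exact Or.inl ⟨2, by omega, h⟩
      · unfold zz at h
        rw [List.mem_map] at h
        obtain ⟨E, hE, rfl⟩ := h
        exact Or.inr ⟨E, mem_idx hE, rfl⟩
    rcases hcase with ⟨j, hj, rfl⟩ | ⟨E, hE, rfl⟩
    · obtain ⟨j', -, hj'⟩ := hf j hj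
      rw [hj', List.mem_singleton] at hzc
      omega
    · rw [hfz E hE, List.mem_singleton] at hzc
      obtain ⟨k1, hk1, hcv1, hmem⟩ := hback E hcU
      unfold ci at hmem
      rw [List.mem_map] at hmem
      obtain ⟨i1, -, hi1⟩ := hmem
      have : k = k1 := by omega
      rw [this]
      exact hcv1
  constructor
  · obtain ⟨g, hg, -, h⟩ := key 1 (by omega)
    exact (fin_check s s' e' 1 (by omega) g hg h).2 rfl
  · intro i hi
    obtain ⟨g, hg, hfg, h⟩ := key i hi
    rw [hfg, (fin_check s s' e' i hi g hg h).1]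

end Pool.Agent.MWI.H88
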