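import Pool.Agent.MWI.StmtsT

/-!
# Squad MWI (problem MP_23468a_al), row OUR: `yy` moves to the right end of the main block
-/

namespace Pool.Agent.MWI.H88

open Pool.Agent.Helper14_MV Pool.Agent.Helper2_MV Pool.Agent.MWF Pool.Agent.MWI

/-- the letters `0`, `z_i`, `t_i` -/
def pz (i : ℕ) (c : ℕ) : Bool := decide (c = 0 ∨ c = 3 * i + 2 ∨ c = 3 * i + 1)

theorem pz_zero (i : ℕ) : pz i 0 = true := by simp [pz]

theorem pz_z (i j : ℕ) : pz i (3 * j + 2) = decide (j = i) := by
  unfold pz
  rw [decide_eq_decide]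
  omega

theorem pz_t (i j : ℕ) : pz i (3 * j + 1) = decide (j = i) := by
  unfold pz
  rw [decide_eq_decide]
  omega

theorem pl_cons (j : ℕ) (P : List ℕ) : pl (j :: P) = (3 * j + 2) :: (3 * j + 1) :: pl P := rfl

theorem pr_cons (j : ℕ) (P : List ℕ) : pr (j :: P) = (3 * j + 1) :: (3 * j + 2) :: pr P := rfl

theorem zz_cons (j : ℕ) (P : List ℕ) : zz (j :: P) = (3 * j + 2) :: zz P := rfl

theorem pl_pz (i : ℕ) : ∀ P : List ℕ, P.Nodup →
    (pl P).filter (pz i) = if i ∈ P then [3 * i + 2, 3 * i + 1] else [] := by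
  intro P
  induction P with
  | nil => intro _; rfl
  | cons j P ih =>
    intro h
    rw [List.nodup_cons] at h
    rw [pl_cons, List.filter_cons, List.filter_cons, pz_z, pz_t, ih h.2]
    by_cases hj : j = i
    · subst hj
      simp [h.1]
    · have : i ≠ j := fun h' => hj h'.symm
      simp [hj, this]

theorem pr_pz (i : ℕ) : ∀ P : List ℕ, P.Nodup →
    (pr P).filter (pz i) = if i ∈ P then [3 * i + 1, 3 * i + 2] else [] := by
  intro P
  induction P with
  | nil => intro _; rfl
  | cons j P ih =>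
    intro h
    rw [List.nodup_cons] at h
    rw [pr_cons, List.filter_cons, List.filter_cons, pz_z, pz_t, ih h.2]
    by_cases hj : j = i
    · subst hj
      simp [h.1]
    · have : i ≠ j := fun h' => hj h'.symm
      simp [hj, this]

theorem zz_pz (i : ℕ) : ∀ P : List ℕ, P.Nodup →
    (zz P).filter (pz i) = if i ∈ P then [3 * i + 2] else [] := by
  intro P
  induction P with
  | nil => intro _; rfl
  | cons j P ih =>
    intro h
    rw [List.nodup_cons] at h
    rw [zz_cons, List.filter_cons, pz_z, ih h.2]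
    by_cases hj : j = i
    · subst hj
      simp [h.1]
    · have : i ≠ j := fun h' => hj h'.symm
      simp [hj, this]

theorem z_mem_pl {i : ℕ} {P : List ℕ} (h : i ∈ P) : 3 * i + 2 ∈ pl P := by
  unfold pl
  rw [List.mem_flatMap]
  exact ⟨i, h, by simp⟩

theorem z_mem_pr {i : ℕ} {P : List ℕ} (h : i ∈ P) : 3 * i + 2 ∈ pr P := by
  unfold pr
  rw [List.mem_flatMap]
  exact ⟨i, h, by simp⟩

/-- `yy` passes a letter -/
theorem move_one {β : FIC} (hk : K1 β) {P Q h1 h2 : List ℕ} {m : ℕ}
    (hPQ : (P ++ Q).Perm (List.range m)) (hh : (h1 ++ h2).Perm (List.range m))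
    (H : RR β (ww P Q (List.range m)) (pl P ++ (zz h1 ++ 0 :: 0 :: (zz h2 ++ pr Q)))) {i : ℕ}
    (hi : i ∈ h2) (p q : List ℕ) (hp : i ∈ P → 3 * i + 2 ∈ p) (hq : i ∈ Q → 3 * i + 2 ∈ q) :
    RR β (p ++ 0 :: 0 :: (3 * i + 2) :: q) (p ++ (3 * i + 2) :: 0 :: 0 :: q) := by
  have nPQ : (P ++ Q).Nodup := hPQ.nodup_iff.2 List.nodup_range
  have nh : (h1 ++ h2).Nodup := hh.nodup_iff.2 List.nodup_range
  have him : i ∈ List.range m := hh.mem_iff.1 (List.mem_append_right _ hi)
  have hi1 : i ∉ h1 := fun h => (List.nodup_append.1 nh).2.2 _ h _ hi rfl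
  have F := H.filter (pz i)
  unfold ww at F
  simp only [List.filter_append, List.filter_cons, pz_zero, if_true,
    pl_pz i P nPQ.of_append_left, pr_pz i Q nPQ.of_append_right,
    zz_pz i _ List.nodup_range, zz_pz i h1 nh.of_append_left, zz_pz i h2 nh.of_append_right,
    him, hi, hi1, if_false] at F
  have z0 : 3 * i + 2 ≠ 0 := by omega
  have zt : 3 * i + 2 ≠ 3 * i + 1 := by omega
  have t0 : 3 * i + 1 ≠ 0 := by omega
  have hiPQ : i ∈ P ++ Q := hPQ.mem_iff.2 him
  by_cases hiP : i ∈ P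
  · have hiQ : i ∉ Q := fun h => (List.nodup_append.1 nPQ).2.2 _ hiP _ h rfl
    simp only [hiP, hiQ, if_true, if_false, List.append_nil, List.nil_append,
      List.cons_append] at F
    have k1 := hk [3 * i + 2, 3 * i + 1] [] (3 * i + 2) 0 z0 (Or.inl (by simp))
    have G : RR β [3 * i + 2, 3 * i + 1, 0, 0, 3 * i + 2] [3 * i + 2, 3 * i + 1, 3 * i + 2, 0, 0] :=
      rtr (RR.symm F) (RR.symm k1)
    obtain ⟨a, b, rfl⟩ := List.append_of_mem (hp hiP)
    have S := G.sub (fun c => if c = 3 * i + 1 then b else [c])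
    simp only [List.flatMap_cons, List.flatMap_nil, zt, t0.symm, if_true, if_false,
      List.append_nil] at S
    have S2 := ((RR.refl (β := β) a).append S).append (RR.refl q)
    simpa using S2
  · have hiQ : i ∈ Q := by
      rcases List.mem_append.1 hiPQ with h | h
      · exact absurd h hiP
      · exact h
    simp only [hiP, hiQ, if_true, if_false, List.nil_append,
      List.cons_append] at F
    have k1 := hk [] [3 * i + 1, 3 * i + 2] (3 * i + 2) 0 z0 (Or.inr (by simp))
    have G : RR β [0, 0, 3 * i + 2, 3 * i + 1, 3 * i + 2] [3 * i + 2, 0, 0, 3 * i + 1, 3 * i + 2] :=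
      rtr (RR.symm F) (RR.symm k1)
    obtain ⟨a, b, rfl⟩ := List.append_of_mem (hq hiQ)
    have S := G.sub (fun c => if c = 3 * i + 1 then a else [c])
    simp only [List.flatMap_cons, List.flatMap_nil, zt, t0.symm, if_true, if_false,
      List.append_nil] at S
    have S2 := ((RR.refl (β := β) p).append S).append (RR.refl b)
    simpa using S2

theorem our : OurStmt := by
  intro β hk P Q h1 h2 m hPQ hh H
  have key : ∀ (g2 g1 : List ℕ), (∀ i ∈ g2, i ∈ h2) → g1 ++ g2 = h1 ++ h2 →
      RR β (ww P Q (List.range m)) (pl P ++ (zz g1 ++ 0 :: 0 :: (zz g2 ++ pr Q))) →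
      RR β (ww P Q (List.range m)) (pl P ++ (zz (h1 ++ h2) ++ 0 :: 0 :: pr Q)) := by
    intro g2
    induction g2 with
    | nil =>
      intro g1 _ he hr
      rw [← he, List.append_nil]
      exact hr
    | cons i g2 ih =>
      intro g1 hs he hr
      apply ih (g1 ++ [i]) (fun j hj => hs j (List.mem_cons_of_mem _ hj)) (by rw [← he]; simp)
      refine rtr hr ?_
      have h3 := move_one hk hPQ hh H (hs i (by simp)) (pl P ++ zz g1) (zz g2 ++ pr Q)
        (fun h => List.mem_append_left _ (z_mem_pl h))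
        (fun h => List.mem_append_right _ (z_mem_pr h))
      have e1 : pl P ++ (zz g1 ++ 0 :: 0 :: (zz (i :: g2) ++ pr Q)) =
          (pl P ++ zz g1) ++ 0 :: 0 :: (3 * i + 2) :: (zz g2 ++ pr Q) := by
        rw [zz_cons]
        simp
      have e2 : pl P ++ (zz (g1 ++ [i]) ++ 0 :: 0 :: (zz g2 ++ pr Q)) =
          (pl P ++ zz g1) ++ (3 * i + 2) :: 0 :: 0 :: (zz g2 ++ pr Q) := by
        unfold zz
        simp
      rw [e1, e2]
      exact h3
  exact key h2 h1 (fun i hi => hi) rfl H

end Pool.Agent.MWI.H88
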